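import Pool.Agent.V1141.NG.Pred
import Pool.Agent.Y133.Half.Per

/-!
# The de Rham-Betti classes of all products of given varieties are generated by few factors

Let `X 1, …, X r` be arbitrary smooth projective varieties over the field of algebraic numbers. We
study the de Rham-Betti classes (the classes of the groups `H_Gr`) on all products
`X i₁ × ⋯ × X iₘ` with any number of factors (repetitions are allowed); a sub-product is the
product over a subsequence of the sequence of indices.

**Theorem.** There is a number `N` with the following properties, for all products
`Z = X i₁ × ⋯ × X iₘ`.

1. Every de Rham-Betti class of positive codimension on `Z` lies in the ideal of the cohomology ring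
   of `Z` which is generated by the pull-backs of the de Rham-Betti classes of positive codimension
   on the sub-products with at most `N` factors.
2. Suppose that the duality pairing between the de Rham-Betti classes of complementary
   codimensions is nondegenerate for `Z` and its sub-products. (This is the case if the
   periods of the `X i` have a reductive Tannakian group, for instance for abelian varieties, by the
   theorem of Wüstholz.) Then all de Rham-Betti classes on `Z` are polynomials in pull-backs of
   de Rham-Betti classes on the sub-products with at most `N` factors. If the Grothendieck period
   conjecture holds for the sub-products of `Z` with at most `N` factors, then it holds for `Z`,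
   and homological and numerical equivalence agree on `Z`.

The proof does not use motivic Galois groups or the standard conjecture of Lefschetz. Words
in homogeneous bases of the cohomology of the `X i` span the cohomology of the products. By the
lemma of Higman on subwords, applied to leading words, the ideals generated by the de Rham-Betti
classes of positive codimension are, for all products with many factors, generated by the pull-backs
from proper sub-products. If the classes are nondegenerate, one can project the coefficients in such a
representation onto the de Rham-Betti classes, along their orthogonal complement, and this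
lowers the codimension.
-/

set_option autoImplicit false

open CategoryTheory AlgebraicGeometry

universe u v

namespace Pool.Agent.Results.MP_bf54cf_ag.FewFactors

open Pool.Agent.H914 Pool.Agent.Y133.Per Pool.Agent.V1141.NG VarClass Obj WeilCohomology

/-- The duality pairing between the de Rham-Betti classes of complementary codimensions on `Z` is
nondegenerate. -/
def DRBNondeg {k : Type u} [Field k] {𝒱 : VarClass k} {ops : CycleOps 𝒱}
    {W : WeilCohomology.{u, v} ops} [Algebra W.K ℂ] {F : Subfield ℂ} (D : DeRham W F)
    (Z : 𝒱.Obj) : Prop :=
  ∀ a b : ℕ, a + b = Z.dim → ∀ x, IsDRB D Z a x →
    (∀ y, IsDRB D Z b y → W.tr Z (x * y) = 0) → x = 0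

/-- **The ring of the de Rham-Betti classes of all products of given varieties is generated by the
products with a bounded number of factors.** -/
theorem result {k : Type u} [Field k] {𝒱 : VarClass k} {ops : CycleOps 𝒱}
    (W : WeilCohomology.{u, v} ops) [Algebra W.K ℂ] {F : Subfield ℂ} (D : DeRham W F)
    {r : ℕ} (X : Fin r → 𝒱.Obj) :
    ∃ N : ℕ, ∀ (i : Fin r) (I : List (Fin r)),
      (∀ c, 0 < c → ∀ x, IsDRB D (prodL X i I) c x → x ∈ idealFrom (IsDRB D) X N i I) ∧
      ((∀ j J, IsSub j J i I → DRBNondeg D (prodL X j J)) →
        (∀ c x, IsDRB D (prodL X i I) c x → x ∈ ringFrom (IsDRB D) X N i I) ∧
        ((∀ j J, IsSub j J i I → J.length + 1 ≤ N → ∀ c, GPC D (prodL X j J) c) →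
          (∀ c, GPC D (prodL X i I) c) ∧ HomEqNum W (prodL X i I))) := by
  obtain ⟨N, hN⟩ := fam_main (predFam (drbPred D)) (fun Z j z hz => (drbPred D).cl hz) X
  refine ⟨N, fun i I => ⟨(hN i I).1, fun hT => ?_⟩⟩
  obtain ⟨h1, h2⟩ := (hN i I).2 hT
  exact ⟨h1, fun H => h2 fun j J hJ hJ' c x hx => H j J hJ hJ' c x hx⟩

end Pool.Agent.Results.MP_bf54cf_ag.FewFactors
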