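import Pool.Agent.V11273.GH.B2

/-!
# Grothendieck's period conjecture for algebraic cycles, in all codimensions and at all heights, for all powers and products of
# almost all integer fibres of families of abelian varieties with symplectic monodromy

Let `A_i`, `1 ≤ i ≤ k`, be families of polarised abelian varieties of dimension `g_i` over open parts of the line over `ℚ`.
They are given by vectors `h_i` of G-functions over `ℚ` (with the conditions of Siegel and Galochkin, regular singular with
rational exponents at `0`, all of which hold for families of varieties) and matrices `P_i(x)` whose entries are polynomials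
with arbitrary complex coefficients in `log x` and in the `h_{i,l}(x)`: the period matrices of `H^1` near any rational point,
which may be a point of degeneration. The rows of `P_i` belong to a symplectic basis of the homology over `ℚ`, the columns to
an algebraic basis of `H^1_dR`. `Gal` is the group of the matrices `g` such that `P_i` and `g P_i` satisfy the same polynomial
relations over `ℂ(x)` (the Zariski closure of the monodromy group if `P_i` is a fundamental matrix of the Gauss-Manin
system). We assume that it contains the symplectic group, as is the case for the Jacobians of the general families of curves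
and of hyperelliptic curves, for families of elliptic curves which are not isotrivial, and for most others.

For positive integers `t_i` let `H^1 = ⨁_i H^1(A_(i, 1 / t_i))`. The cohomology group `H^(2m)(A)` of every product `A` of
powers of the abelian varieties `A_(i, 1 / t_i)` is, with all its structures, a sum of direct summands (alternating parts of
Künneth components) of `(H^1)^(⊗ 2m)`. Let `K` be a number field. A class in `H^(2m)_dR(A / K) ∩ H^(2m)(A, ℚ(m))` is a pair
of a vector `ω` with coordinates in `K` and a rational tensor `γ` with `∑_J ∏_p Z(I_p, J_p) ω_J = (2 π i)^m γ_I`, where `Z`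
is the period matrix of the sum.

**Theorem.** Let `D` be a natural number. For almost all tuples of integers `t` (all but
`C N^(k-1) ∑_i (1 + N / (x_i + N)^c)` of the tuples in the box `∏_i (x_i, x_i + N]`) the following holds for all number
fields `K` of degree at most `D` at once, all `m`, and all products `A` of powers of the `A_(i, 1 / t_i)`: all classes in
`H^(2m)_dR(A / K) ∩ H^(2m)(A, ℚ(m))`, of any height, are linear combinations over `ℚ` of products of the classes
`E_i(x_p, x_q)` of the polarisations over perfect matchings of the `2m` variables. These are products of classes of divisors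
(of the form `(pr_a + pr_b)^* E_i - pr_a^* E_i - pr_b^* E_i` on the powers), so all these classes are algebraic.
Moreover there are functions `D(N) → ∞` and `δ(N) → 0` such that this is true with `D = D(N)` for all but `δ(N) N^k` of the
tuples `t` in `[1, N]^k`.

So `GPC^m(A)` can only fail for these `A` because of classes of `H_dR(A / ℚ̄)` which are not defined over a field of
small degree.

Proof. For a class `(ω, γ)` over `K` the matrices `x` with `x^(⊗ 2m) ω = γ`, with a Tate twist, form a `K`-subtorsor. By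
the library theorem `Pool.Agent.Y123.GN.all_main` (BigMonodromyTorsors) it is stable under the symplectic groups, so `γ` is
invariant. Applied to the elements `1 + t J u uᵗ` this gives, after taking derivatives, that `γ` is killed by the
symplectic Lie algebras, and the first fundamental theorem of invariant theory for products of symplectic groups, in the
version of the files `Pool/Agent/H204R3`, gives the conclusion.
-/

set_option autoImplicit false

open PowerSeries Filter
open scoped Matrix

namespace Pool.Agent.Results.MP_bf54cf_ag.SymplecticAllHeights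

/-- an integer polynomial as a power series with rational coefficients -/
noncomputable def toQ (P : Polynomial ℤ) : PowerSeries ℚ := ((P.map (Int.castRingHom ℚ) : Polynomial ℚ) : PowerSeries ℚ)

/-- the power series `P(u^e)` -/
noncomputable def atPow (e : ℕ) (P : Polynomial ℤ) : PowerSeries ℂ :=
  ((Polynomial.expand ℂ e (P.map (Int.castRingHom ℂ)) : Polynomial ℂ) : PowerSeries ℂ)

/-- the matrices `G_s` over `ℤ[x]` with `T^s y^(s) = G_s y` for all solutions `y` of `T y' = A y` -/
noncomputable def iter {r : ℕ} (T : Polynomial ℤ) (A : Fin r → Fin r → Polynomial ℤ) : ℕ → Fin r → Fin r → Polynomial ℤ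
  | 0 => fun i j => if i = j then 1 else 0
  | s + 1 => fun i j => T * Polynomial.derivative (iter T A s i j) + ∑ l, iter T A s i l * A l j -
      (s : Polynomial ℤ) * (Polynomial.derivative T * iter T A s i j)

/-- The system `T y' = A y` has a fundamental matrix of solutions of the form `u^(-M) ∑_n Φ_n(u) (log u)^n` with
`u^e = x` and convergent power series `Φ_n`: the point `0` is regular or a regular singularity with rational
exponents. -/
def QuasiUnipotent {r : ℕ} (T : Polynomial ℤ) (A : Fin r → Fin r → Polynomial ℤ) : Prop :=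
  ∃ (e M : ℕ) (K : ℝ) (Φ : Matrix (Fin r) (Fin r) (Polynomial (PowerSeries ℂ))), 1 ≤ e ∧ Φ.det ≠ 0 ∧
    (∀ i j n m, ‖coeff m ((Φ i j).coeff n)‖ ≤ K ^ (m + 1)) ∧
    ∀ i j n, atPow e T * (X * PowerSeries.derivative ℂ ((Φ i j).coeff n) +
        ((n : PowerSeries ℂ) + 1) * (Φ i j).coeff (n + 1) - (M : PowerSeries ℂ) * (Φ i j).coeff n) =
      (e : PowerSeries ℂ) * X ^ e * ∑ l, atPow e (A i l) * (Φ l j).coeff n

/-- `h_1, ..., h_r` are G-functions with rational coefficients which solve the differential system `T y' = A y`, with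
the conditions of Siegel and Galochkin, and `0` is a regular point or a regular singularity with rational exponents of
the system. -/
structure GFamily {r : ℕ} (T : Polynomial ℤ) (A : Fin r → Fin r → Polynomial ℤ) (h : Fin r → PowerSeries ℚ) : Prop where
  /-- the denominator is not zero -/
  T_ne : T ≠ 0
  /-- the differential equations -/
  ode : ∀ i, toQ T * PowerSeries.derivative ℚ (h i) = ∑ j, toQ (A i j) * h j
  /-- the coefficients have geometric growth -/
  size : ∃ C : ℝ, ∀ i m, |((coeff m (h i) : ℚ) : ℝ)| ≤ C ^ (m + 1)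
  /-- the common denominators of the coefficients have geometric growth -/
  den : ∃ C : ℝ, ∀ m : ℕ, ∃ d : ℕ, 0 < d ∧ (d : ℝ) ≤ C ^ (m + 1) ∧ ∀ i, ∀ j ≤ m, ∃ a : ℤ, (d : ℚ) * coeff j (h i) = a
  /-- Galochkin's condition: the common denominators of the matrices `G_s / s!` have geometric growth -/
  galochkin : ∃ C : ℝ, ∀ m : ℕ, ∃ d : ℕ, 0 < d ∧ (d : ℝ) ≤ C ^ (m + 1) ∧ ∀ s ≤ m, ∀ i j,
    ∃ H : Polynomial ℤ, (d : Polynomial ℤ) * iter T A s i j = (s.factorial : Polynomial ℤ) * H
  /-- the local exponents at `0` are rational and the singularity is regular -/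
  regular : QuasiUnipotent T A

theorem iter_eq {r : ℕ} (T : Polynomial ℤ) (A : Fin r → Fin r → Polynomial ℤ) (s : ℕ) :
    iter T A s = Pool.Agent.Y120.GH.itm T A s := by
  induction s with
  | zero => rfl
  | succ s ih =>
    funext i j
    rw [iter, Pool.Agent.Y120.GH.itm, ih]

theorem qu_eq {r : ℕ} {T : Polynomial ℤ} {A : Fin r → Fin r → Polynomial ℤ} (h : QuasiUnipotent T A) :
    Pool.Agent.Y120.GH.QU0 T A := by
  obtain ⟨e, M, K, Φ, he, hdet, hc, heq⟩ := h
  have he0 : e ≠ 0 := by omega
  refine ⟨e, he0, M, K, Φ, hc, fun i j n => ?_, hdet⟩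
  have h1 := heq i j n
  simp only [atPow] at h1
  rw [Pool.Agent.Y120.GH.expand_poly he0]
  simp only [Pool.Agent.Y120.GH.expand_poly he0]
  exact h1

theorem fam {r : ℕ} {T : Polynomial ℤ} {A : Fin r → Fin r → Polynomial ℤ} {h : Fin r → PowerSeries ℚ}
    (hG : GFamily T A h) (δ : ℕ) : Pool.Agent.Y120.R.Fam δ h :=
  ⟨hG.size, Pool.Agent.Y120.GH.family_main hG.T_ne hG.ode hG.size hG.den (by
    obtain ⟨C, hC⟩ := hG.galochkin
    refine ⟨C, fun m => ?_⟩
    obtain ⟨d, h1, h2, h3⟩ := hC m
    refine ⟨d, h1, h2, fun s hs i' j' => ?_⟩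
    rw [← iter_eq]
    exact h3 s hs i' j') (qu_eq hG.regular) δ⟩

section family
variable {r n : ℕ}

/-- The period matrix at `x = 1 / s`: the entries are the polynomials `P a b` in `log s` and in the `h_l(1 / s)`. -/
noncomputable def perMat (h : Fin r → PowerSeries ℚ) (P : Fin n → Fin n → MvPolynomial (Option (Fin r)) ℂ) (s : ℝ) :
    Matrix (Fin n) (Fin n) ℂ :=
  Matrix.of fun a b => MvPolynomial.aeval (fun o : Option (Fin r) => o.elim ((Real.log s : ℝ) : ℂ)
    fun l => ((∑' m : ℕ, ((coeff m (h l) : ℚ) : ℝ) * (1 / s) ^ m : ℝ) : ℂ)) (P a b)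

/-- the value at `x = 1 / s` and at the matrix `Z` of a polynomial in the entries of a matrix over `ℂ[x]` -/
noncomputable def relAt (R : MvPolynomial (Fin n × Fin n) (Polynomial ℂ)) (s : ℝ) (Z : Matrix (Fin n) (Fin n) ℂ) : ℂ :=
  MvPolynomial.eval₂ (Polynomial.evalRingHom (1 / (s : ℂ))) (fun v => Z v.1 v.2) R

/-- `g P(x)` satisfies all polynomial relations over `ℂ[x]` which `P(x)` satisfies. -/
def Preserves (h : Fin r → PowerSeries ℚ) (P : Fin n → Fin n → MvPolynomial (Option (Fin r)) ℂ)
    (g : Matrix (Fin n) (Fin n) ℂ) : Prop :=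
  ∀ R : MvPolynomial (Fin n × Fin n) (Polynomial ℂ), (∀ᶠ s : ℝ in Filter.atTop, relAt R s (perMat h P s) = 0) →
    ∀ᶠ s : ℝ in Filter.atTop, relAt R s (g * perMat h P s) = 0

/-- The group of the matrices `g` such that `g` and `g⁻¹` preserve the relations. If `P` is a fundamental matrix of a linear
differential system over `ℂ(x)` this is its differential Galois group. -/
noncomputable def Gal (h : Fin r → PowerSeries ℚ) (P : Fin n → Fin n → MvPolynomial (Option (Fin r)) ℂ) :
    Subgroup (Matrix.GeneralLinearGroup (Fin n) ℂ) where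
  carrier := {g | Preserves h P (g : Matrix (Fin n) (Fin n) ℂ) ∧
    Preserves h P ((g⁻¹ : Matrix.GeneralLinearGroup (Fin n) ℂ) : Matrix (Fin n) (Fin n) ℂ)}
  mul_mem' := fun hg hg' => (Pool.Agent.Y123.GN.Gs h P).mul_mem' hg hg'
  one_mem' := (Pool.Agent.Y123.GN.Gs h P).one_mem'
  inv_mem' := fun hg => (Pool.Agent.Y123.GN.Gs h P).inv_mem' hg

theorem gal_eq (h : Fin r → PowerSeries ℚ) (P : Fin n → Fin n → MvPolynomial (Option (Fin r)) ℂ) :
    Gal h P = Pool.Agent.Y123.GN.Gs h P := rfl

end family

/-- the standard symplectic form on `ℚ ^ (g + g)` or `ℂ ^ (g + g)` -/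
noncomputable def form (Ω : Type) [Field Ω] (g : ℕ) : Matrix (Fin (g + g)) (Fin (g + g)) Ω :=
  Matrix.reindex finSumFinEquiv finSumFinEquiv (Matrix.J (Fin g) Ω)

/-- the Galois group contains the symplectic group -/
def ContainsSymplectic {r g : ℕ} (h : Fin r → PowerSeries ℚ)
    (P : Fin (g + g) → Fin (g + g) → MvPolynomial (Option (Fin r)) ℂ) : Prop :=
  ∀ a : Matrix.GeneralLinearGroup (Fin (g + g)) ℂ, (a : Matrix (Fin (g + g)) (Fin (g + g)) ℂ).det = 1 →
    (a : Matrix (Fin (g + g)) (Fin (g + g)) ℂ) * form ℂ g * (a : Matrix (Fin (g + g)) (Fin (g + g)) ℂ)ᵀ = form ℂ g →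
    a ∈ Gal h P

section
variable {k : ℕ} {g : Fin k → ℕ} {ρ : Fin k → ℕ}

/-- The class of the polarisation of the `i`-th abelian variety: the value of the standard symplectic form on two vectors
of the basis if they both belong to the `i`-th summand, and zero otherwise. -/
noncomputable def polarization (i : Fin k) (a b : Σ i, Fin (g i + g i)) : ℚ :=
  if a.1 = i then (Matrix.blockDiagonal' (fun i => form ℚ (g i)) :
    Matrix (Σ i, Fin (g i + g i)) (Σ i, Fin (g i + g i)) ℚ) a b else 0

/-- The span of the products of the classes of the polarisations over perfect matchings of the `2 m` variables. -/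
noncomputable def divisorClasses (g : Fin k → ℕ) (m : ℕ) : Submodule ℚ ((Fin (2 * m) → Σ i, Fin (g i + g i)) → ℚ) :=
  Submodule.span ℚ {F | ∃ (e : Fin m × Fin 2 ≃ Fin (2 * m)) (c : Fin m → Fin k),
    ∀ I, F I = ∏ s, polarization (c s) (I (e (s, 0))) (I (e (s, 1)))}

/-- The conclusion for one tuple; `Z i` is the period matrix of the fibre of the `i`-th family: for all number fields `K` of
degree at most `D` and all `m` all classes in `(⨁ H^1(A_i))^(⊗ 2 m)` which are de Rham over `K` and `(2 π i)^m` times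
rational are linear combinations of products of the classes of the polarisations. -/
def Good (D : ℕ) (Z : ∀ i, Matrix (Fin (g i + g i)) (Fin (g i + g i)) ℂ) : Prop :=
  ∀ K : Subfield ℂ, FiniteDimensional ℚ K → Module.finrank ℚ K ≤ D →
  ∀ (m : ℕ) (ω : (Fin (2 * m) → Σ i, Fin (g i + g i)) → ℂ) (γ : (Fin (2 * m) → Σ i, Fin (g i + g i)) → ℚ),
    (∀ J, ω J ∈ K) →
    (∀ I, ∑ J, (∏ p, Matrix.blockDiagonal' Z (I p) (J p)) * ω J = (2 * Real.pi * Complex.I) ^ m * (γ I : ℂ)) →
    γ ∈ divisorClasses g m

theorem good_of {D : ℕ} {h : ∀ i, Fin (ρ i) → PowerSeries ℚ}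
    {P : ∀ i, Fin (g i + g i) → Fin (g i + g i) → MvPolynomial (Option (Fin (ρ i))) ℂ} {t : Fin k → ℕ}
    (hSp : ∀ i, ContainsSymplectic (h i) (P i)) (hu : ∀ i, IsUnit (perMat (h i) (P i) (t i : ℝ)))
    (hg : Pool.Agent.Y123.GN.GoodU D (Matrix.of fun (_ _ : Fin 1) => (2 * Real.pi * Complex.I : ℂ)⁻¹) h P t) :
    Good D fun i => perMat (h i) (P i) (t i : ℝ) := by
  intro K hKf hKD m ω γ hω hrel
  exact Pool.Agent.V11273.GH.class_symp hg hu (fun i a ha => hSp i a ha.1 ha.2) hKf hKD hω hrel

end

/-- **The theorem.** -/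
theorem result (k e : ℕ) (g ρ : Fin k → ℕ) (T : Fin k → Polynomial ℤ)
    (A : ∀ i, Fin (ρ i) → Fin (ρ i) → Polynomial ℤ) (h : ∀ i, Fin (ρ i) → PowerSeries ℚ)
    (hG : ∀ i, GFamily (T i) (A i) (h i)) :
    -- number fields of degree at most `D`
    (∀ D : ℕ, ∃ c C : ℝ, 0 < c ∧ 0 ≤ C ∧
      ∀ P : ∀ i, Fin (g i + g i) → Fin (g i + g i) → MvPolynomial (Option (Fin (ρ i))) ℂ,
      (∀ i a b, (P i a b).totalDegree ≤ e) → (∀ i, ContainsSymplectic (h i) (P i)) → ∀ (x : Fin k → ℕ) (N : ℕ), 1 ≤ N →
      (({t : Fin k → ℕ | (∀ i, x i < t i ∧ t i ≤ x i + N) ∧ (∀ i, IsUnit (perMat (h i) (P i) (t i : ℝ))) ∧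
        ¬ Good D fun i => perMat (h i) (P i) (t i : ℝ)}.ncard : ℕ) : ℝ) ≤
        C * (N : ℝ) ^ (k - 1) * ∑ i, (1 + N / ((x i : ℝ) + N) ^ c)) ∧
    -- number fields of degree at most `D N`, which tends to infinity
    (∃ (D : ℕ → ℕ) (δ : ℕ → ℝ), Tendsto D atTop atTop ∧ Tendsto δ atTop (nhds 0) ∧
      ∀ P : ∀ i, Fin (g i + g i) → Fin (g i + g i) → MvPolynomial (Option (Fin (ρ i))) ℂ,
      (∀ i a b, (P i a b).totalDegree ≤ e) → (∀ i, ContainsSymplectic (h i) (P i)) → ∀ N : ℕ, 1 ≤ N →
      (({t : Fin k → ℕ | (∀ i, 1 ≤ t i ∧ t i ≤ N) ∧ (∀ i, IsUnit (perMat (h i) (P i) (t i : ℝ))) ∧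
        ¬ Good (D N) fun i => perMat (h i) (P i) (t i : ℝ)}.ncard : ℕ) : ℝ) ≤ δ N * (N : ℝ) ^ k) := by
  classical
  have hmain : ∀ D : ℕ, ∃ c C : ℝ, 0 < c ∧ 0 ≤ C ∧
      ∀ P : ∀ i, Fin (g i + g i) → Fin (g i + g i) → MvPolynomial (Option (Fin (ρ i))) ℂ,
      (∀ i a b, (P i a b).totalDegree ≤ e) → (∀ i, ContainsSymplectic (h i) (P i)) → ∀ (x : Fin k → ℕ) (N : ℕ), 1 ≤ N →
      (({t : Fin k → ℕ | (∀ i, x i < t i ∧ t i ≤ x i + N) ∧ (∀ i, IsUnit (perMat (h i) (P i) (t i : ℝ))) ∧
        ¬ Good D fun i => perMat (h i) (P i) (t i : ℝ)}.ncard : ℕ) : ℝ) ≤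
        C * (N : ℝ) ^ (k - 1) * ∑ i, (1 + N / ((x i : ℝ) + N) ^ c) := by
    intro D
    obtain ⟨c, C, hc, hC, hmain⟩ := Pool.Agent.Y123.GN.all_main k D e 1 ρ (fun i => g i + g i) h fun i δ => fam (hG i) δ
    refine ⟨c, C, hc, hC, ?_⟩
    intro P hP hSp x N hN
    set E := {t : Fin k → ℕ | (∀ i, x i < t i ∧ t i ≤ x i + N) ∧ (∀ i, IsUnit (perMat (h i) (P i) (t i : ℝ))) ∧
        ¬ Good D fun i => perMat (h i) (P i) (t i : ℝ)} with hE
    have hfin : E.Finite := by
      refine (Set.finite_Iic (fun i : Fin k => x i + N)).subset ?_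
      intro t ht i
      exact (ht.1 i).2
    rw [Set.ncard_eq_toFinset_card E hfin]
    refine hmain P hP (Matrix.of fun (_ _ : Fin 1) => (2 * Real.pi * Complex.I : ℂ)⁻¹) x N hN _ fun t ht => ?_
    have ht' : t ∈ E := hfin.mem_toFinset.1 ht
    exact ⟨ht'.1, fun hgood => ht'.2.2 (good_of hSp ht'.2.1 hgood)⟩
  refine ⟨hmain, ?_⟩
  choose c C hc hC hcount using hmain
  obtain ⟨D, hD, hδ⟩ := Pool.Agent.Y123.GN.diag_seq
    (fun D N => C D * k * (1 / (N : ℝ) + 1 / (N : ℝ) ^ (c D))) (by
      intro D
      have h1 : Tendsto (fun N : ℕ => (1 : ℝ) / (N : ℝ)) atTop (nhds 0) := tendsto_one_div_atTop_nhds_zero_nat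
      have h2 : Tendsto (fun N : ℕ => (1 : ℝ) / (N : ℝ) ^ (c D)) atTop (nhds 0) := by
        have h3 := (tendsto_rpow_atTop (hc D)).comp tendsto_natCast_atTop_atTop
        have h4 := h3.inv_tendsto_atTop
        refine h4.congr fun N => ?_
        rw [one_div]
        rfl
      have h5 := (h1.add h2).const_mul (C D * k)
      rw [add_zero, mul_zero] at h5
      exact h5)
  refine ⟨D, _, hD, hδ, ?_⟩
  intro P hP hSp N hN
  have h1 := hcount (D N) P hP hSp (fun _ => 0) N hN
  have h2 : {t : Fin k → ℕ | (∀ i, 0 < t i ∧ t i ≤ 0 + N) ∧ (∀ i, IsUnit (perMat (h i) (P i) (t i : ℝ))) ∧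
      ¬ Good (D N) fun i => perMat (h i) (P i) (t i : ℝ)} = {t : Fin k → ℕ | (∀ i, 1 ≤ t i ∧ t i ≤ N) ∧
      (∀ i, IsUnit (perMat (h i) (P i) (t i : ℝ))) ∧
      ¬ Good (D N) fun i => perMat (h i) (P i) (t i : ℝ)} := by
    ext t
    simp only [Set.mem_ofPred_eq, zero_add, Nat.lt_iff_add_one_le]
  rw [h2] at h1
  refine h1.trans (le_of_eq ?_)
  have hN0 : (N : ℝ) ≠ 0 := by
    have : N ≠ 0 := by omega
    exact_mod_cast this
  rw [Finset.sum_const, Finset.card_univ, Fintype.card_fin, nsmul_eq_mul, Nat.cast_zero, zero_add]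
  rcases Nat.eq_zero_or_pos k with hk | hk
  · subst hk
    simp
  · obtain ⟨q, rfl⟩ : ∃ q, k = q + 1 := ⟨k - 1, by omega⟩
    have h3 : (N : ℝ) ^ (q + 1) = (N : ℝ) ^ q * N := pow_succ _ _
    rw [Nat.add_sub_cancel, h3]
    have h4 : (1 : ℝ) + N / (N : ℝ) ^ (c (D N)) = N * (1 / (N : ℝ) + 1 / (N : ℝ) ^ (c (D N))) := by
      rw [mul_add, mul_one_div_cancel hN0, mul_one_div]
    rw [h4]
    ring

end Pool.Agent.Results.MP_bf54cf_ag.SymplecticAllHeights
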