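import Pool.Agent.V11273.GH.F3

/-!
# Grothendieck's period conjecture for algebraic cycles, in all codimensions and bounded height, for the powers and products
# of almost all fibres of families of abelian varieties with symplectic monodromy

Let `A_j → S_j`, `j` in a finite set, be families of polarised abelian varieties of dimension `g_j` over open parts of
affine spaces, of any dimension. A family is given here (`Family`) by its algebraic connection `c ∂_i Y = Y B_i` and an
invertible matrix `Y` of analytic solutions on a nonempty connected open set `U`, the period matrix of `H^1`: its rows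
belong to a symplectic basis `γ_a` of the homology over `ℚ` (`a ∈ G_j ⊕ G_j`, `|G_j| = g_j`), the columns to an algebraic
basis `ω_b` of `H^1_dR`, and the entries are `∫_(γ_a) ω_b`. `galois` is the group of the constant matrices `g` such that all
polynomial relations over `ℂ[x]` between the entries of `Y` are relations between the entries of `g Y` (the differential
Galois group, the Zariski closure of the monodromy group). We assume that it contains the symplectic group: the monodromy
group is Zariski dense in `Sp_(2g)` or bigger. This is true for the universal families and for the Jacobians of the general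
families of curves and of hyperelliptic curves, among others.

For algebraic points `s_j` of `S_j` let `H^1 = ⨁_j H^1(A_(j,s_j))`. The cohomology group `H^(2m)(A)` of every product `A` of
powers of the abelian varieties `A_(j,s_j)` is, with all its structures, a sum of direct summands (alternating parts of
Künneth components) of `(H^1)^(⊗ 2m)`. An element of `H^(2m)_Gr(A, ℚ(m))` is a pair of a vector `ω` of the de Rham
side and a rational tensor `γ` with `∑_J ∏_p Y(I_p, J_p) ω_J = (2 π i)^m γ_I`.

**Theorem.** There is `ω(T) → ∞` such that for all `T` which are large, all number fields `K` of degree at most `ω(T)` and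
all tuples `s` of points over `K` of height at most `T` (in a compact set which exhausts the domain), outside of a set which
lies on at most `T^(1 / ω(T))` hypersurfaces of degree at most `T^(1 / ω(T))` (and so has density zero, with a power
saving): every such class with `2 m ≤ ω(T)` and `ω` over `O_K`, `γ` over `ℤ` of size at most `T^(ω(T))` is a linear
combination over `ℚ` of products of the classes `E_j(x_p, x_q)` of the polarisations over perfect matchings of the `2m`
variables. All of these are products of classes of divisors (of the forms `(pr_a + pr_b)^* E_j - pr_a^* E_j - pr_b^* E_j`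
on the powers), so the class is algebraic: there is no counterexample to `GPC^m` of bounded height.

Proof. The torsor theorem of MP_77d3f5_ag (Picard-Vessiot theory for arbitrary families and the determinant method) shows
that outside of the exceptional set the tensor `γ` is invariant under the identity components of the Galois groups
(`V11273/PV`). Applied to the symplectic elements `1 + t J u uᵗ` it gives, after taking derivatives, that `γ` is killed by
the symplectic Lie algebras, and the first fundamental theorem of invariant theory for products of symplectic groups, in the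
version of the files `Pool/Agent/H204R3`, gives the conclusion.
-/

set_option autoImplicit false

open Filter NumberField

namespace Pool.Agent.Results.MP_bf54cf_ag.SymplecticFamilies

/-- an algebraic connection on the affine space `ℂ ^ X` with a fundamental matrix `Y` of analytic solutions on `U` -/
structure Family (X ι : Type) [Fintype X] [DecidableEq X] [Fintype ι] [DecidableEq ι] where
  /-- a nonempty connected open set -/
  U : Set (X → ℂ)
  isOpen : IsOpen U
  connected : IsPreconnected U
  nonempty : U.Nonempty
  /-- the matrix of the solutions (periods) -/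
  Y : (X → ℂ) → Matrix ι ι ℂ
  analytic : ∀ a b, AnalyticOnNhd ℂ (fun x => Y x a b) U
  det_ne : ∀ x ∈ U, (Y x).det ≠ 0
  /-- the common denominator of the connection -/
  c : MvPolynomial X ℂ
  c_ne : c ≠ 0
  /-- the numerators -/
  B : X → Matrix ι ι (MvPolynomial X ℂ)
  /-- `c ∂_i Y = Y B_i` -/
  eqn : ∀ x ∈ U, ∀ i a b, MvPolynomial.eval x c * fderiv ℂ (fun x => Y x a b) x (Pi.single i 1) =
    ∑ e, Y x a e * MvPolynomial.eval x (B i e b)

section
variable {X ι : Type} [Fintype X] [DecidableEq X] [Fintype ι] [DecidableEq ι]

/-- all polynomial relations between the entries of `Y` over `ℂ[x]` are relations between the entries of `g Y` -/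
def Preserves (F : Family X ι) (g : Matrix ι ι ℂ) : Prop :=
  ∀ p : MvPolynomial (ι × ι) (MvPolynomial X ℂ),
    (∀ x ∈ F.U, MvPolynomial.eval₂ (MvPolynomial.eval x) (fun v => F.Y x v.1 v.2) p = 0) →
    ∀ x ∈ F.U, MvPolynomial.eval₂ (MvPolynomial.eval x) (fun v => (g * F.Y x) v.1 v.2) p = 0

/-- the Galois group -/
def Family.galois (F : Family X ι) : Subgroup (GL ι ℂ) where
  carrier := {g | Preserves F (g : Matrix ι ι ℂ)}
  mul_mem' := fun ha hb => (Pool.Agent.V11273.PV.Gal F.U F.Y).mul_mem' ha hb
  one_mem' := (Pool.Agent.V11273.PV.Gal F.U F.Y).one_mem'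
  inv_mem' := fun ha => (Pool.Agent.V11273.PV.Gal F.U F.Y).inv_mem' ha

end

/-- quotients of two integers of `K`, all conjugates of which are at most `T` -/
def HeightLe (K : Type) [Field K] [NumberField K] (T : ℝ) (x : K) : Prop :=
  ∃ a b : 𝓞 K, b ≠ 0 ∧ house (a : K) ≤ T ∧ house (b : K) ≤ T ∧ x = a / b

/-- `S` is covered by at most `m` hypersurfaces of degree at most `D` -/
def CoveredBy {X : Type} (D m : ℕ) (S : Set (X → ℂ)) : Prop :=
  ∃ Φ : Finset (MvPolynomial X ℂ), Φ.card ≤ m ∧ (∀ P ∈ Φ, P ≠ 0 ∧ P.totalDegree ≤ D) ∧
    ∀ x ∈ S, ∃ P ∈ Φ, MvPolynomial.eval x P = 0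

/-- the points of norm at most `k` at distance at least `1 / k` from the complement of `U` -/
def Inner {X : Type} [Fintype X] (U : Set (X → ℂ)) (k : ℕ) : Set (X → ℂ) :=
  {z | ‖z‖ ≤ k ∧ Metric.ball z (k : ℝ)⁻¹ ⊆ U}

section
variable {κ : Type} [Fintype κ] [DecidableEq κ] {X G : κ → Type} [∀ j, Fintype (X j)] [∀ j, DecidableEq (X j)]
  [∀ j, Fintype (G j)] [∀ j, DecidableEq (G j)]

/-- the tuples of points of the domains of the families -/
def domain (F : ∀ j, Family (X j) (G j ⊕ G j)) : Set ((Σ j, X j) → ℂ) := {z | ∀ j, (fun i => z ⟨j, i⟩) ∈ (F j).U}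

/-- the period matrix of the sum of the fibres at `z_j` -/
noncomputable def periods (F : ∀ j, Family (X j) (G j ⊕ G j)) (z : (Σ j, X j) → ℂ) :
    Matrix (Σ j, G j ⊕ G j) (Σ j, G j ⊕ G j) ℂ :=
  Matrix.blockDiagonal' fun j => (F j).Y fun i => z ⟨j, i⟩

/-- The class of the polarisation of the `j`-th abelian variety: the value of the standard symplectic form on two vectors
of the basis if they both belong to the `j`-th summand, and zero otherwise. -/
noncomputable def polarization (j : κ) (a b : Σ j, G j ⊕ G j) : ℚ :=
  if a.1 = j then (Matrix.blockDiagonal' fun j => Matrix.J (G j) ℚ : Matrix (Σ j, G j ⊕ G j) (Σ j, G j ⊕ G j) ℚ) a b else 0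

/-- The span of the products of the classes of the polarisations over perfect matchings of the `2 m` variables. -/
noncomputable def divisorClasses (G : κ → Type) [∀ j, DecidableEq (G j)] (m : ℕ) :
    Submodule ℚ ((Fin (2 * m) → Σ j, G j ⊕ G j) → ℚ) :=
  Submodule.span ℚ {F | ∃ (e : Fin m × Fin 2 ≃ Fin (2 * m)) (c : Fin m → κ),
    ∀ I, F I = ∏ s, polarization (c s) (I (e (s, 0))) (I (e (s, 1)))}

/-- The exceptional tuples `s` of points with coordinates in `K`: they are of height at most `T`, in the compact set
`Inner (domain F) k`, and for some `m` with `2 m ≤ k` there are a vector `ω` over the integers of `K` and an integral vector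
`γ`, of size at most `T ^ k`, with `Y(s) ^ ⊗(2 m) ω = (2 π i) ^ m γ`, such that `γ` is not in the span of the products of
the classes of the polarisations. -/
def Exceptional (F : ∀ j, Family (X j) (G j ⊕ G j)) (K : Type) [Field K] [NumberField K] (io : K →+* ℂ) (k : ℕ)
    (T : ℝ) : Set ((Σ j, X j) → K) :=
  {s | (∀ i, HeightLe K T (s i)) ∧ (fun i => io (s i)) ∈ Inner (domain F) k ∧ ∃ m : ℕ, 2 * m ≤ k ∧
    ∃ (ω : (Fin (2 * m) → Σ j, G j ⊕ G j) → 𝓞 K) (γ : (Fin (2 * m) → Σ j, G j ⊕ G j) → ℤ),
      (∀ I (ψ : K →+* ℂ), ‖ψ (ω I : K)‖ ≤ T ^ (k : ℝ)) ∧ (∀ I, |(γ I : ℝ)| ≤ T ^ (k : ℝ)) ∧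
      (∀ I, ∑ J, (∏ p, periods F (fun i => io (s i)) (I p) (J p)) * io (ω J : K) =
        (2 * Real.pi * Complex.I) ^ m * (γ I : ℂ)) ∧ (fun I => (γ I : ℚ)) ∉ divisorClasses G m}

/-- Let `F_j`, `j` in a finite set, be families whose Galois groups contain the symplectic groups `Sp_(2 g_j)`. There is
`ω → ∞` such that for all large `T` and all number fields `K` of degree at most `ω T`, embedded in `ℂ`, the set
`Exceptional F K io (ω T) T` lies on at most `T ^ (1 / ω T)` hypersurfaces of degree at most `T ^ (1 / ω T)`, and has at
most `T ^ (1 / ω T) * N ^ (d - 1)` elements, where `d` is the dimension of the product of the bases and `N` is the number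
of the elements of `K` of height at most `T`. Outside of this set, for all points `s` with coordinates in `K` of height at
most `T` (in `Inner (domain F) (ω T)`), all classes in `(⨁_j H^1(A_(j,s_j)))^(⊗ 2 m)` which are de Rham over `K` and
`(2 π i)^m` times rational, with `2 m ≤ ω T` and of height at most `T ^ ω T`, are linear combinations of products of the
classes of the polarisations. -/
theorem result [Nonempty (Σ j, X j)] (F : ∀ j, Family (X j) (G j ⊕ G j))
    (hSp : ∀ j, ∀ g : GL (G j ⊕ G j) ℂ, (g : Matrix (G j ⊕ G j) (G j ⊕ G j) ℂ) ∈ Matrix.symplecticGroup (G j) ℂ →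
      g ∈ (F j).galois) :
    ∃ (ω : ℝ → ℕ) (T₀ : ℝ), Tendsto ω atTop atTop ∧ Monotone ω ∧ ∀ T, T₀ ≤ T → 0 < ω T ∧
      ∀ (K : Type) [Field K] [NumberField K], Module.finrank ℚ K ≤ ω T → ∀ (io : K →+* ℂ),
        CoveredBy ⌊T ^ ((ω T : ℝ)⁻¹)⌋₊ ⌊T ^ ((ω T : ℝ)⁻¹)⌋₊
          ((fun s i => io (s i)) '' Exceptional F K io (ω T) T) ∧
        (Exceptional F K io (ω T) T).Finite ∧
        ((Exceptional F K io (ω T) T).ncard : ℝ) ≤
          T ^ ((ω T : ℝ)⁻¹) * ({x : K | HeightLe K T x}.ncard : ℝ) ^ (Fintype.card (Σ j, X j) - 1) :=
  Pool.Agent.V11273.GH.main_G (U := fun j => (F j).U) (Y := fun j => (F j).Y) (fun j => (F j).connected)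
    (fun j => (F j).isOpen) (fun j => (F j).nonempty) (fun j => (F j).analytic) (fun j => (F j).det_ne)
    (fun j => (F j).c_ne) (fun j => (F j).eqn) hSp

end

end Pool.Agent.Results.MP_bf54cf_ag.SymplecticFamilies
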