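import Pool.Agent.V1142.XZ.Drb

/-!
# The index of the de Rham-Betti classes on the products `Z × X^n`

In the intended use the varieties are the smooth projective ones over the field of algebraic
numbers, `W` is the cohomology of the complex manifolds with rational coefficients, and `D` is the
de Rham cohomology.

Let `X` and `Z` be varieties, let `r(Y)` be the rank of the group of algebraic cycles on `Y` modulo
numerical equivalence and let `g(Y)` be the number of linearly independent de Rham-Betti classes
on `Y`. There is `N` in `{1, 2, …, ∞}`, which depends only on `X`, and there are `P` in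
`{1, 2, …, ∞}` and an integer `0 ≤ q ≤ b(Z)`, where `b(Z)` is the total Betti number, with `N ≤ P`
and `N q ≤ P`, such that

* `g(X^n) / r(X^n)` tends to `N`, and `N = 1` if and only if the Grothendieck period conjecture
  holds and homological and numerical equivalence agree for all powers of `X`;
* `g(Z × X^n) / r(X^n)` tends to `P`, and `r(Z × X^n) / r(X^n)` tends to `q` if `N` is finite;
* `g(Z × X^n) / r(Z × X^n)` tends to `P / q`;
* the Grothendieck period conjecture holds and homological and numerical equivalence agree for all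
  products `Z × X^n` if and only if `P = q`; otherwise `r(Z × X^n)` is asymptotically at most
  `b(Z) / (b(Z) + 1)` times `g(Z × X^n)`.
-/

open CategoryTheory AlgebraicGeometry Filter Topology

open scoped ENNReal

universe u v

namespace Pool.Agent.Results.MP_bf54cf_ag.TimesPowers

open Pool.Agent.H914 Pool.Agent.V1142.XZ Pool.Agent.Y133.Per
open Pool.Agent.Y133.Half (pw cycRank HasIndex)

variable {k : Type u} [Field k] {𝒱 : VarClass k} {ops : CycleOps 𝒱}

/-- The index law: `pw X n` is the product of `n + 1` copies of `X`. -/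
theorem result (W : WeilCohomology.{u, v} ops) [Algebra W.K ℂ] {F : Subfield ℂ} (D : DeRham W F)
    (X : 𝒱.Obj) [Nontrivial (W.H X)] :
    ∃ N : ℕ∞, 1 ≤ N ∧
      HasIndex (fun n => drbDim D (pw X n)) (fun n => cycRank ops (pw X n)) N ∧
      (N = 1 ↔ ∀ n, (∀ j, GPC D (pw X n) j) ∧ HomEqNum W (pw X n)) ∧
      ∀ Z : 𝒱.Obj, Nontrivial (W.H Z) → ∃ (P : ℕ∞) (q : ℕ), N ≤ P ∧ N * q ≤ P ∧
        q ≤ Module.finrank W.K (W.H Z) ∧
        HasIndex (fun n => drbDim D (Z.prod (pw X n))) (fun n => cycRank ops (pw X n)) P ∧
        (N ≠ ⊤ → HasIndex (fun n => cycRank ops (Z.prod (pw X n)))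
          (fun n => cycRank ops (pw X n)) q) ∧
        Tendsto (fun n => (drbDim D (Z.prod (pw X n)) : ℝ≥0∞) /
          cycRank ops (Z.prod (pw X n))) atTop (𝓝 ((P : ℝ≥0∞) / q)) ∧
        (P = q ↔ ∀ n, (∀ j, GPC D (Z.prod (pw X n)) j) ∧ HomEqNum W (Z.prod (pw X n))) ∧
        (P ≠ q → AtMost (Module.finrank W.K (W.H Z) / (Module.finrank W.K (W.H Z) + 1))
          (fun n => cycRank ops (Z.prod (pw X n))) (fun n => drbDim D (Z.prod (pw X n)))) :=
  drb_times D X

end Pool.Agent.Results.MP_bf54cf_ag.TimesPowers
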